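import Pool.Agent.Work.MP_64ea0f_cs.InterfaceG3

set_option autoImplicit false

/-! # Block FAR2 (helper89): if `x` is big at `δ'` and `B δ δ' < 0` then `x` is near at `δ` -/

namespace Pool.CS

theorem far2_thm (hb : Stmt_BAS) (_ho : Stmt_ORD) : Stmt_FAR2 := by
  intro D K x hx δ δ' _ _ hbig hcmp hneg
  obtain ⟨_, hlin, _, _, hinv, hone, _, _, hnegRt, _⟩ := hb D
  have hadd : ∀ v v' w, D.B (v + v') w = D.B v w + D.B v' w := by
    intro v v' w
    have := hlin 1 1 v v' w
    simpa using this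
  have hsmul : ∀ (a : ℝ) v w, D.B (a • v) w = a * D.B v w := by
    intro a v w
    have := hlin a 0 v 0 w
    simpa using this
  have hnegl : ∀ v w, D.B (-v) w = - D.B v w := by
    intro v w
    have := hsmul (-1) v w
    simpa using this
  let g : D.V →ₗ[ℝ] ℝ :=
    { toFun := fun v => D.B v δ' / D.B δ δ'
      map_add' := by intro v w; simp only [hadd]; ring
      map_smul' := by
        intro a v
        simp only [hsmul, RingHom.id_apply, smul_eq_mul]
        ring }
  refine ⟨g, ?_, ?_, ?_⟩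
  · show D.B δ δ' / D.B δ δ' = 1
    exact div_self hneg.ne
  · intro φ hφ hφK
    show D.B φ δ' / D.B δ δ' = 0
    rw [hcmp φ hφ.1 hφK]
    simp
  · intro φ hφx hφ
    show -0 ≤ D.B φ δ' / D.B δ δ'
    have h1 : D.B φ δ' ≤ 0 := by
      by_contra hpos
      push Not at hpos
      have h2 : D.B (-φ) δ' < 0 := by rw [hnegl]; linarith
      have h3 : -φ ∈ x := hbig (-φ) (hnegRt φ hφ.1) h2
      obtain ⟨w, hw1, hw2⟩ := hx.cmp φ hφx (-φ) h3
      have h4 : D.ρ w⁻¹ φ = 0 := by
        funext t
        have a1 := hw1.2 t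
        have a2 := hw2.2 t
        rw [map_neg] at a2
        have a3 : (-(D.ρ w⁻¹ φ)) t = - (D.ρ w⁻¹ φ t) := rfl
        rw [a3] at a2
        show D.ρ w⁻¹ φ t = 0
        linarith
      have h5 : D.B (D.ρ w⁻¹ φ) (D.ρ w⁻¹ φ) = 1 := by rw [hinv]; exact hone φ hφ.1
      rw [h4] at h5
      have h6 : D.B (0 : D.V) (0 : D.V) = 0 := by
        have := hsmul 0 0 0
        simpa using this
      linarith
    have := div_nonneg_of_nonpos h1 hneg.le
    simpa using this

end Pool.CS
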