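import Pool.Agent.Work.MP_64ea0f_cs.InterfaceG3

set_option autoImplicit false

/-! # Block PRL (helper89): labels are periodic along affine strings -/

namespace Pool.CS

theorem prl_thm (ht : Stmt_THR) (hb : Stmt_BAS) : Stmt_PRL := by
  intro D H hN hF
  have := hN
  have := hF
  obtain ⟨hsym, hlin, _, _, _, hone, _, _, _, href, _⟩ := hb D
  have hadd : ∀ v v' w, D.B (v + v') w = D.B v w + D.B v' w := by
    intro v v' w
    have := hlin 1 1 v v' w
    simpa using this
  have hsmul : ∀ (a : ℝ) v w, D.B (a • v) w = a * D.B v w := by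
    intro a v w
    have := hlin a 0 v 0 w
    simpa using this
  have haddr : ∀ v w w', D.B v (w + w') = D.B v w + D.B v w' := by
    intro v w w'
    rw [hsym, hadd, hsym w, hsym w']
  have hsmulr : ∀ (a : ℝ) v w, D.B v (a • w) = a * D.B v w := by
    intro a v w
    rw [hsym, hsmul, hsym w]
  have hnegl : ∀ v w, D.B (-v) w = - D.B v w := by
    intro v w
    have := hsmul (-1) v w
    simpa using this
  have hq : 0 < H.index := Nat.pos_of_ne_zero Subgroup.FiniteIndex.index_ne_zero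
  refine ⟨2 * H.index, by omega, ?_⟩
  intro δ hδ φ hφ i
  obtain ⟨_, hiff, _⟩ := ht D δ hδ φ hφ
  obtain ⟨hc0, -⟩ := ht D δ hδ φ hφ
  generalize D.cst δ φ = c at hc0 hiff ⊢
  have r1 : φ + c • δ ∈ D.Rt := (hiff c).2 ⟨1, by simp⟩
  have r2 : φ + (2 * c) • δ ∈ D.Rt := (hiff (2 * c)).2 ⟨2, by push_cast; ring⟩
  have b0 := hone φ hφ.1
  have b1 := hone _ r1
  have b2 := hone _ r2
  have hexp : ∀ t : ℝ, D.B (φ + t • δ) (φ + t • δ) =
      D.B φ φ + 2 * t * D.B δ φ + t ^ 2 * D.B δ δ := by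
    intro t
    rw [hadd, haddr, haddr, hsmul, hsmul, hsmulr, hsmulr, hsym φ δ]
    ring
  rw [hexp, b0] at b1 b2
  have hd0 : D.B δ δ = 0 := by
    have h1 : c ^ 2 * D.B δ δ = 0 := by linarith
    rcases mul_eq_zero.1 h1 with h | h
    · exact absurd (pow_eq_zero_iff (two_ne_zero) |>.1 h) hc0.ne'
    · exact h
  have ha0 : D.B δ φ = 0 := by
    rw [hd0] at b1
    have h1 : c * D.B δ φ = 0 := by linarith
    rcases mul_eq_zero.1 h1 with h | h
    · exact absurd h hc0.ne'
    · exact h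
  have ha0' : D.B φ δ = 0 := by rw [hsym]; exact ha0
  -- the translation
  have hT : ∀ t : ℝ, D.ρ (D.rf (φ + c • δ) * D.rf φ) (φ + t • δ) = φ + (t + 2 * c) • δ := by
    intro t
    rw [map_mul]
    show D.ρ (D.rf (φ + c • δ)) (D.ρ (D.rf φ) (φ + t • δ)) = _
    rw [href φ hφ.1]
    have e1 : D.B (φ + t • δ) φ = 1 := by rw [hadd, hsmul, b0, ha0]; ring
    rw [e1, href _ r1]
    have e2 : D.B (φ + t • δ - (2 * (1 : ℝ)) • φ) (φ + c • δ) = -1 := by
      have e3 : φ + t • δ - (2 * (1 : ℝ)) • φ = -φ + t • δ := by module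
      rw [e3, hadd, haddr, haddr, hnegl, hnegl, hsmul, hsmul, hsmulr, hsmulr, b0, ha0, ha0', hd0]
      ring
    rw [e2]
    module
  generalize D.rf (φ + c • δ) * D.rf φ = T at hT
  have hTn : ∀ (n : ℕ) (t : ℝ), D.ρ (T ^ n) (φ + t • δ) = φ + (t + 2 * c * n) • δ := by
    intro n
    induction n with
    | zero =>
      intro t
      rw [pow_zero, map_one]
      simp
    | succ n ih =>
      intro t
      rw [pow_succ, map_mul]
      show D.ρ (T ^ n) (D.ρ T (φ + t • δ)) = _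
      rw [hT, ih]
      push_cast
      module
  have hTn' : ∀ (n : ℕ) (t : ℝ), D.ρ (T ^ n)⁻¹ (φ + t • δ) = φ + (t - 2 * c * n) • δ := by
    intro n t
    have h1 := hTn n (t - 2 * c * n)
    have h2 : t - 2 * c * n + 2 * c * n = t := by ring
    rw [h2] at h1
    rw [← h1]
    have h3 : D.ρ (T ^ n)⁻¹ * D.ρ (T ^ n) = 1 := by rw [← map_mul, inv_mul_cancel, map_one]
    exact LinearMap.congr_fun h3 _
  have hmem : ∀ n : ℕ, T ^ (H.index * n) ∈ H := by
    intro n
    rw [pow_mul]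
    exact H.pow_mem (Subgroup.pow_index_mem H T) n
  have hφ0 : φ = φ + (0 : ℝ) • δ := by simp
  obtain ⟨n, hn | hn⟩ := i.eq_nat_or_neg
  · refine ⟨T ^ (H.index * n), hmem n, Or.inl ?_⟩
    have h1 := hTn (H.index * n) 0
    rw [← hφ0] at h1
    rw [h1, hn]
    push_cast
    module
  · refine ⟨(T ^ (H.index * n))⁻¹, H.inv_mem (hmem n), Or.inl ?_⟩
    have h1 := hTn' (H.index * n) 0
    rw [← hφ0] at h1
    rw [h1, hn]
    push_cast
    module

end Pool.CS
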